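import Mathlib
import Pool.Agent.Helper43.SnohaHomeo

set_option autoImplicit false
open Filter Topology TopologicalSpace

namespace Pool.Agent.Results.MP_613746_an.HomeomorphismsOfSubshift

/-- The point `x` is uniformly recurrent for `f`: for every neighbourhood `U` of `x` the set of
times `n ≥ 1` with `f^n(x) ∈ U` has bounded gaps. -/
def UniformlyRecurrent {X : Type} [TopologicalSpace X] (f : X → X) (x : X) : Prop :=
  ∀ U ∈ 𝓝 x, ∃ N : ℕ, ∀ m : ℕ, ∃ n : ℕ, m < n ∧ n ≤ m + N ∧ f^[n] x ∈ U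

/-- There are a nonempty compact metric space `X` and commuting homeomorphisms `f`, `g` of `X`
such that no point is uniformly recurrent for both; moreover `X` is (up to a homeomorphism `e`) a
closed set of 0-1 configurations on the plane lattice, `f` is the horizontal and `g` the vertical
unit shift. -/
theorem result :
    ∃ (X : Type) (_ : MetricSpace X) (_ : CompactSpace X) (_ : Nonempty X) (f g : X ≃ₜ X)
      (e : X → (ℤ × ℤ → Bool)),
      (∀ x, f (g x) = g (f x)) ∧
      IsClosedEmbedding e ∧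
      (∀ x i j, e (f x) (i, j) = e x (i + 1, j)) ∧
      (∀ x i j, e (g x) (i, j) = e x (i, j + 1)) ∧
      ∀ x, ¬ (UniformlyRecurrent f x ∧ UniformlyRecurrent g x) := by
  refine ⟨Pool.Agent.Helper43.Snoha.XS, TopologicalSpace.metrizableSpaceMetric _,
    isCompact_iff_compactSpace.mp Pool.Agent.Helper43.Snoha.isClosed_XS.isCompact,
    Pool.Agent.Helper43.Snoha.XS_nonempty.to_subtype, Pool.Agent.Helper43.Snoha.hF,
    Pool.Agent.Helper43.Snoha.hG, Subtype.val, ?_, ?_, ?_, ?_, ?_⟩
  · intro x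
    apply Subtype.ext
    funext p
    simp [Pool.Agent.Helper43.Snoha.hF, Pool.Agent.Helper43.Snoha.hG,
      Pool.Agent.Helper43.Snoha.tr]
  · exact Pool.Agent.Helper43.Snoha.isClosed_XS.isClosedEmbedding_subtypeVal
  · intro x i j
    simp [Pool.Agent.Helper43.Snoha.hF, Pool.Agent.Helper43.Snoha.tr]
  · intro x i j
    simp [Pool.Agent.Helper43.Snoha.hG, Pool.Agent.Helper43.Snoha.tr]
  · rintro x ⟨h1, h2⟩
    refine Pool.Agent.Helper43.Snoha.no_common x ?_ ?_
    · intro U hU
      obtain ⟨N, hN⟩ := h1 U hU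
      refine ⟨N, fun m => ?_⟩
      obtain ⟨k, hk1, hk2, hk3⟩ := hN m
      exact ⟨k, hk1.le, hk2, hk3⟩
    · intro U hU
      obtain ⟨N, hN⟩ := h2 U hU
      refine ⟨N, fun m => ?_⟩
      obtain ⟨k, hk1, hk2, hk3⟩ := hN m
      exact ⟨k, hk1.le, hk2, hk3⟩

end Pool.Agent.Results.MP_613746_an.HomeomorphismsOfSubshift
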